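import Pool.Agent.Helper68.KPR.St

/-!
# Module RNO of project KP (MP_26be5b_ag): the algebra `R^(d)` is integrally closed
-/

set_option autoImplicit false

namespace Pool.Agent.Helper95.KPR

open Pool.Agent.Helper52.KP Pool.Agent.Helper5.KPA Pool.Agent.Helper68.KPR MvPolynomial

/-- A retract of an integrally closed domain is integrally closed. -/
theorem retract {D B : Type} [CommRing D] [IsDomain D] [CommRing B] [IsDomain B]
    [hB : IsIntegrallyClosed B] (i : D →+* B) (ρ : B →+* D) (h : ∀ x, ρ (i x) = x) :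
    IsIntegrallyClosed D := by
  have hi : Function.Injective i := Function.LeftInverse.injective h
  rw [isIntegrallyClosed_iff (FractionRing D)]
  intro x hx
  let f : FractionRing D →+* FractionRing B := IsFractionRing.map hi
  have hf : ∀ d : D, f (algebraMap D (FractionRing D) d) =
      algebraMap B (FractionRing B) (i d) := fun d => IsLocalization.map_eq _ d
  have h2 : IsIntegral B (f x) := by
    obtain ⟨p, hp, hp'⟩ := hx
    refine ⟨p.map i, hp.map i, ?_⟩
    rw [Polynomial.eval₂_map]
    have h3 : (algebraMap B (FractionRing B)).comp i = f.comp (algebraMap D (FractionRing D)) := by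
      ext d
      exact (hf d).symm
    rw [h3, ← Polynomial.hom_eval₂, hp', map_zero]
  obtain ⟨β, hβ⟩ := (isIntegrallyClosed_iff (FractionRing B)).mp hB h2
  obtain ⟨u, v, hv, rfl⟩ := IsFractionRing.div_surjective (A := D) x
  have hv0 : (v : D) ≠ 0 := nonZeroDivisors.ne_zero hv
  have hv1 : algebraMap D (FractionRing D) v ≠ 0 :=
    (map_ne_zero_iff _ (IsFractionRing.injective D (FractionRing D))).2 hv0
  have hv2 : algebraMap B (FractionRing B) (i v) ≠ 0 :=
    (map_ne_zero_iff _ (IsFractionRing.injective B (FractionRing B))).2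
      ((map_ne_zero_iff _ hi).2 hv0)
  refine ⟨ρ β, ?_⟩
  rw [map_div₀, hf, hf, eq_div_iff hv2, ← map_mul] at hβ
  have h5 : β * i v = i u := IsFractionRing.injective B (FractionRing B) hβ
  have h6 : ρ β * v = u := by
    have := congrArg ρ h5
    rwa [map_mul, h, h] at this
  rw [eq_div_iff hv1, ← map_mul, h6]

theorem hRNO : StRNO := by
  intro C hC r F hF
  have hB := hF.normal
  set B := Algebra.adjoin ℂ {b : Polynomial (MvPolynomial (Fin C.m) ℂ) |
    ∃ k l f, f ∈ F k l ∧ b = Polynomial.C f * Polynomial.X ^ l} with hBd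
  have h1 : ∀ x ∈ DA C r, (Polynomial.CAlgHom (R := ℂ) x :
      Polynomial (MvPolynomial (Fin C.m) ℂ)) ∈ B := by
    intro x hx
    have h2 : DA C r ≤ B.comap (Polynomial.CAlgHom (R := ℂ)) := by
      refine Algebra.adjoin_le ?_
      intro y hy
      rw [Set.mem_iUnion] at hy
      obtain ⟨k, hk⟩ := hy
      refine Algebra.subset_adjoin ⟨k, 0, y, ?_, ?_⟩
      · rw [hF.zero]
        exact hk
      · simp [Polynomial.CAlgHom]
    exact h2 hx
  let ev0 : Polynomial (MvPolynomial (Fin C.m) ℂ) →ₐ[ℂ] MvPolynomial (Fin C.m) ℂ :=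
    (Polynomial.aeval (0 : MvPolynomial (Fin C.m) ℂ)).restrictScalars ℂ
  have h3 : ∀ x ∈ B, ev0 x ∈ DA C r := by
    intro x hx
    have h2 : B ≤ (DA C r).comap ev0 := by
      refine Algebra.adjoin_le ?_
      rintro y ⟨k, l, f, hf, rfl⟩
      show ev0 _ ∈ DA C r
      have e1 : ev0 (Polynomial.C f * Polynomial.X ^ l) = f * 0 ^ l := by
        simp [ev0]
      rw [e1]
      obtain _ | l := l
      · rw [pow_zero, mul_one]
        rw [hF.zero] at hf
        exact Algebra.subset_adjoin (Set.mem_iUnion.2 ⟨k, hf⟩)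
      · rw [pow_succ, mul_zero, mul_zero]
        exact (DA C r).zero_mem
    exact h2 hx
  let i : DA C r →ₐ[ℂ] B := ((Polynomial.CAlgHom (R := ℂ)).comp (DA C r).val).codRestrict B
    fun x => h1 x x.2
  let ρ : B →ₐ[ℂ] DA C r := (ev0.comp B.val).codRestrict (DA C r) fun x => h3 x x.2
  have hB' : IsIntegrallyClosed B := hB
  refine retract (D := DA C r) (B := B) i.toRingHom ρ.toRingHom ?_
  intro x
  apply Subtype.ext
  show ev0 (Polynomial.CAlgHom (R := ℂ) (x : MvPolynomial (Fin C.m) ℂ)) = x
  simp [ev0, Polynomial.CAlgHom]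

end Pool.Agent.Helper95.KPR
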